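import Pool.Agent.H.MP_0447a2_lc.D

set_option autoImplicit false

namespace Pool.Agent.H.MP_df8ac3_lc
open Finset Filter Topology Real Pool.Agent.H.MP_f44585_an Pool.Agent.H.MP_0447a2_lc

noncomputable def gg (x : ℝ) : ℝ := ‖1 + ee x‖ / 2

theorem gg_nonneg (x : ℝ) : 0 ≤ gg x := by unfold gg; positivity

theorem gg_neg (x : ℝ) : gg (-x) = gg x := by
  rw [gg, gg, ← ee_conj, ← Complex.norm_conj (1 + ee x), map_add, map_one]

theorem gg_cont : Continuous gg := by unfold gg; fun_prop

theorem gg_le (x : ℝ) : gg x ≤ 1 - 2 * (x - round x) ^ 2 := by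
  have h1 : ee x = ee (x - round x) := by
    rw [sub_eq_add_neg, ee_add, ← Int.cast_neg, ee_int, mul_one]
  have h2 := abs_sub_round x
  generalize x - round x = d at h1 h2
  have h3 : 4 * |d| ≤ ‖ee d - 1‖ := by
    rw [ee, Complex.norm_exp_I_mul_ofReal_sub_one, Real.norm_eq_abs, abs_mul, abs_two]
    have := mul_abs_le_abs_sin (x := 2 * π * d / 2) (by
      rw [show 2 * π * d / 2 = π * d by ring, abs_mul, abs_of_pos pi_pos]
      nlinarith [pi_pos])
    rw [show |2 * π * d / 2| = π * |d| by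
      rw [show 2 * π * d / 2 = π * d by ring, abs_mul, abs_of_pos pi_pos], ← mul_assoc,
      div_mul_cancel₀ _ pi_pos.ne'] at this
    linarith
  have h4 := parallelogram_law_with_norm ℂ (ee d) 1
  rw [ee_norm, norm_one] at h4
  have h5 : d ^ 2 ≤ 1 / 4 := by nlinarith [abs_nonneg d, sq_abs d]
  rw [gg, h1, add_comm]
  refine abs_le_of_sq_le_sq' ?_ (by linarith) |>.2
  nlinarith [sq_abs d, abs_nonneg d, sq_nonneg (d ^ 2)]

theorem gg_le_one (x : ℝ) : gg x ≤ 1 := (gg_le x).trans (by nlinarith [sq_nonneg (x - round x)])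

noncomputable def Ph (B : ℝ) (R : ℕ) (z : ℝ) : ℝ := ∏ j ∈ range R, gg (z * B ^ j)

theorem Ph_nonneg (B : ℝ) (R : ℕ) (z : ℝ) : 0 ≤ Ph B R z := prod_nonneg fun _ _ => gg_nonneg _

theorem Ph_le_one (B : ℝ) (R : ℕ) (z : ℝ) : Ph B R z ≤ 1 :=
  prod_le_one (fun _ _ => gg_nonneg _) fun _ _ => gg_le_one _

theorem Ph_anti (B z : ℝ) : Antitone fun R => Ph B R z := antitone_nat_of_succ_le fun R => by
  rw [Ph, prod_range_succ]
  exact mul_le_of_le_one_right (Ph_nonneg B R z) (gg_le_one _)

theorem Ph_small {B : ℕ} (hB : 2 ≤ B) {z : ℝ} (hz : Irrational z) {ε : ℝ} (hε : 0 < ε) :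
    ∃ R, Ph B R z < ε := by
  have hB' : (2 : ℝ) ≤ B := by exact_mod_cast hB
  have h1 : ∀ R, ∃ j, R ≤ j ∧ 1 / ((B : ℝ) + 1) ≤ |z * B ^ j - round (z * B ^ j)| := by
    intro R
    by_contra hc
    push Not at hc
    have h2 : ∀ i, z * B ^ (R + i) - round (z * B ^ (R + i)) =
        B ^ i * (z * B ^ R - round (z * B ^ R)) := by
      intro i
      induction i with
      | zero => simp
      | succ i ih =>
        have e1 := hc (R + i) (by omega)
        have e2 := hc (R + (i + 1)) (by omega)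
        have e3 : ((B * round (z * B ^ (R + i)) - round (z * B ^ (R + (i + 1))) : ℤ) : ℝ) =
            (z * B ^ (R + (i + 1)) - round (z * B ^ (R + (i + 1)))) -
              B * (z * B ^ (R + i) - round (z * B ^ (R + i))) := by
          push_cast
          ring
        have e4 : |((B * round (z * B ^ (R + i)) - round (z * B ^ (R + (i + 1))) : ℤ) : ℝ)| < 1 := by
          rw [e3]
          refine (abs_sub _ _).trans_lt ?_
          rw [abs_mul, Nat.abs_cast]
          rw [lt_div_iff₀ (by linarith)] at e1 e2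
          nlinarith [abs_nonneg (z * B ^ (R + i) - round (z * B ^ (R + i))),
            abs_nonneg (z * B ^ (R + (i + 1)) - round (z * B ^ (R + (i + 1))))]
        have e5 : B * round (z * B ^ (R + i)) - round (z * B ^ (R + (i + 1))) = 0 :=
          Int.abs_lt_one_iff.mp (by exact_mod_cast e4)
        rw [e5, Int.cast_zero, ih] at e3
        rw [pow_succ (B : ℝ) i]
        linarith
    have h3 : z * B ^ R - round (z * B ^ R) ≠ 0 := by
      have := (hz.mul_natCast (m := B ^ R) (by positivity)).sub_intCast (round (z * B ^ R))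
      push_cast at this
      exact this.ne_zero
    obtain ⟨i, hi⟩ := pow_unbounded_of_one_lt (1 / |z * B ^ R - round (z * B ^ R)|)
      (by linarith : (1 : ℝ) < B)
    have h4 := abs_sub_round (z * B ^ (R + i))
    rw [h2, abs_mul, abs_of_pos (by positivity)] at h4
    rw [div_lt_iff₀ (abs_pos.mpr h3)] at hi
    linarith
  have h5 : (1 / ((B : ℝ) + 1)) ^ 2 ≤ 1 / 4 := by
    rw [div_pow, div_le_div_iff₀ (by positivity) (by positivity)]
    nlinarith
  have h2 : ∀ c : ℕ, ∃ R, Ph B R z ≤ (1 - 2 * (1 / ((B : ℝ) + 1)) ^ 2) ^ c := by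
    intro c
    induction c with
    | zero => exact ⟨0, by simp [Ph]⟩
    | succ c ih =>
      obtain ⟨R, hR⟩ := ih
      obtain ⟨j, j1, j2⟩ := h1 R
      refine ⟨j + 1, ?_⟩
      rw [Ph, prod_range_succ, pow_succ]
      refine mul_le_mul ((Ph_anti _ _ j1).trans hR) ((gg_le _).trans ?_) (gg_nonneg _)
        (pow_nonneg (by linarith) _)
      have := pow_le_pow_left₀ (by positivity) j2 2
      rw [sq_abs] at this
      linarith
  obtain ⟨c, hc⟩ := exists_pow_lt_of_lt_one hε (y := 1 - 2 * (1 / ((B : ℝ) + 1)) ^ 2)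
    (by have : 0 < (1 / ((B : ℝ) + 1)) ^ 2 := by positivity
        linarith)
  obtain ⟨R, hR⟩ := h2 c
  exact ⟨R, hR.trans_lt hc⟩

open Classical in
theorem visits {θ : ℝ} (hθ : Irrational θ) {P : ℕ} (hP : 0 < P) : ∃ C : ℝ, ∀ (ψ : ℝ) (M : ℕ),
    (((range M).filter fun n : ℕ => ∃ k : ℤ, |ψ + n * θ - k| ≤ 1 / (14 * P)).card : ℝ) ≤
      4 * M / P + C := by
  have hP' : (0 : ℝ) < P := by exact_mod_cast hP
  refine ⟨4 * (∑ j ∈ range P, ∑ i ∈ range P, 2 / ‖ee ((j - i) * θ) - 1‖) / P ^ 2, fun ψ M => ?_⟩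
  have h1 : ∑ n ∈ range M, ‖∑ j ∈ range P, ee (j * (ψ + n * θ))‖ ^ 2 ≤
      P * M + ∑ j ∈ range P, ∑ i ∈ range P, 2 / ‖ee ((j - i) * θ) - 1‖ := by
    refine (le_abs_self _).trans ?_
    rw [← Real.norm_eq_abs, ← Complex.norm_real, Complex.ofReal_sum]
    simp only [normsq]
    rw [sum_comm]
    refine (norm_sum_le_of_le (range P)
      (n := fun j : ℕ => (M : ℝ) + ∑ i ∈ range P, 2 / ‖ee (((j : ℝ) - i) * θ) - 1‖)
      fun j hj => ?_).trans (by simp [sum_add_distrib])
    rw [sum_comm]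
    refine (norm_sum_le_of_le (range P) (n := fun i : ℕ => (if j = i then (M : ℝ) else 0) +
      2 / ‖ee (((j : ℝ) - i) * θ) - 1‖) fun i _ => ?_).trans
      (by rw [sum_add_distrib, sum_ite_eq, if_pos hj])
    split_ifs with hji
    · refine ((norm_sum_le_of_le _ fun n _ => (ee_norm _).le).trans (by simp)).trans
        (le_add_of_nonneg_right (by positivity))
    · have e : ∀ n : ℕ, ee (j * (ψ + n * θ) - i * (ψ + n * θ)) =
          ee ((j - i) * ψ) * ee ((j - i) * θ) ^ n := fun n => by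
        rw [← ee_nat, ← ee_add]; congr 1; ring
      have e2 : ee ((j - i) * θ) ≠ 1 := fun h => by
        obtain ⟨n, hn⟩ := ee_one h
        have := (hθ.intCast_mul (m := (j : ℤ) - i) (by omega)).ne_int n
        push_cast at this
        exact this hn
      simp only [e]
      rw [← mul_sum, norm_mul, ee_norm, one_mul, geom_sum_eq e2, norm_div, zero_add]
      gcongr
      refine (norm_sub_le _ _).trans ?_
      rw [norm_pow, ee_norm, norm_one]
      norm_num
  have h2 : ∀ n ∈ (range M).filter fun n : ℕ => ∃ k : ℤ, |ψ + n * θ - k| ≤ 1 / (14 * P),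
      (P : ℝ) ^ 2 / 4 ≤ ‖∑ j ∈ range P, ee (j * (ψ + n * θ))‖ ^ 2 := by
    intro n hn
    obtain ⟨k, hk⟩ := (mem_filter.mp hn).2
    have e1 : ‖∑ j ∈ range P, (ee (j * (ψ + n * θ)) - 1)‖ ≤ P / 2 := by
      refine (norm_sum_le_of_le _ (n := fun _ => 1 / 2) fun j hj => ?_).trans (by simp [div_eq_mul_inv])
      have e2 := ee_sub (j * (ψ + n * θ)) ((j * k : ℤ) : ℝ)
      rw [ee_int] at e2
      refine e2.trans ?_
      push_cast
      have e3 : (j : ℝ) ≤ P := by exact_mod_cast (mem_range.mp hj).le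
      rw [← mul_sub, abs_mul, Nat.abs_cast]
      calc 7 * (j * |ψ + n * θ - k|) ≤ 7 * (P * (1 / (14 * P))) := by gcongr
        _ = 1 / 2 := by field_simp; norm_num
    rw [sum_sub_distrib, sum_const, card_range, nsmul_eq_mul, mul_one] at e1
    have e2 := norm_sub_norm_le (P : ℂ) (∑ j ∈ range P, ee (j * (ψ + n * θ)))
    rw [norm_sub_rev, Complex.norm_natCast] at e2
    nlinarith
  have h3 := (card_nsmul_le_sum _ _ _ h2).trans ((sum_le_sum_of_subset_of_nonneg (filter_subset _ _)
    fun _ _ _ => by positivity).trans h1)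
  rw [nsmul_eq_mul] at h3
  rw [div_add_div _ _ hP'.ne' (by positivity), le_div_iff₀ (by positivity)]
  nlinarith [mul_le_mul_of_nonneg_left h3 hP'.le]

noncomputable def mant (B y : ℝ) : ℝ := exp (Int.fract (log y / log B) * log B)

theorem key {a : ℝ} (ha : 0 < a) {B : ℕ} (hB : 2 ≤ B) (hθ : Irrational (log a / log B)) {ε : ℝ}
    (hε : 0 < ε) : ∃ (R : ℕ) (C : ℝ), ∀ (κ : ℝ) (M : ℕ), 0 < κ →
      ∑ n ∈ range M, Ph B R (mant B (κ * a ^ n)) ≤ ε * M + C := by
  classical
  have hl : 0 < log (B : ℝ) := log_pos (by exact_mod_cast hB)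
  obtain ⟨q, hq⟩ := exists_surjective_nat ℚ
  have hP : ∀ i : ℕ, ∃ P : ℕ, 0 < P ∧ 4 / (P : ℝ) ≤ ε / 4 * (1 / 2) ^ i := fun i => by
    obtain ⟨P, hP⟩ := exists_nat_gt (4 / (ε / 4 * (1 / 2) ^ i))
    have : (0 : ℝ) < P := lt_trans (by positivity) hP
    refine ⟨P, by exact_mod_cast this, ?_⟩
    rw [div_lt_iff₀ (by positivity)] at hP
    rw [div_le_iff₀ this]
    linarith
  choose P P1 P2 using hP
  choose C hC using fun i => visits hθ (P1 i)
  obtain ⟨R, hR⟩ := (isCompact_Icc (a := (0 : ℝ)) (b := 1)).elim_directed_cover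
    (fun R : ℕ => {φ | Ph B R (exp (φ * log B)) < ε / 2} ∪
      ⋃ i ∈ range R, Metric.ball (log (q i) / log B) (1 / (14 * P i)))
    (fun R => (isOpen_lt (continuous_finset_prod _ fun j _ => gg_cont.comp (by fun_prop))
      continuous_const).union (isOpen_biUnion fun _ _ => Metric.isOpen_ball))
    (fun φ _ => by
      rw [Set.mem_iUnion]
      by_cases h : Irrational (exp (φ * log B))
      · exact (Ph_small hB h (half_pos hε)).imp fun R hR => Or.inl hR
      · obtain ⟨r, hr⟩ := not_not.mp h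
        obtain ⟨i, rfl⟩ := hq r
        refine ⟨i + 1, Or.inr (Set.mem_biUnion (self_mem_range_succ i) ?_)⟩
        rw [hr, log_exp, mul_div_cancel_right₀ _ hl.ne']
        have := P1 i
        exact Metric.mem_ball_self (by positivity))
    (Monotone.directed_le fun R R' h => Set.union_subset_union
      (fun φ hφ => (Ph_anti _ _ h).trans_lt hφ)
      (Set.biUnion_subset_biUnion_left (range_subset_range.mpr h)))
  refine ⟨R, ∑ i ∈ range R, C i, fun κ M hκ => ?_⟩
  have h1 : ∀ n ∈ range M, Ph B R (mant B (κ * a ^ n)) ≤ ε / 2 + ∑ i ∈ range R,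
      if ∃ k : ℤ, |log κ / log B - log (q i) / log B + n * (log a / log B) - k| ≤ 1 / (14 * P i)
        then (1 : ℝ) else 0 := by
    intro n _
    rcases hR ⟨Int.fract_nonneg (log (κ * a ^ n) / log B), (Int.fract_lt_one _).le⟩ with h | h
    · exact (le_of_lt h).trans (le_add_of_nonneg_right (sum_nonneg fun _ _ => by positivity))
    · simp only [Set.mem_iUnion] at h
      obtain ⟨i, hi, h⟩ := h
      have hx : ∃ k : ℤ, |log κ / log B - log (q i) / log B + n * (log a / log B) - k| ≤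
          1 / (14 * P i) := by
        refine ⟨⌊log (κ * a ^ n) / log B⌋, ?_⟩
        rw [Metric.mem_ball, Real.dist_eq, Int.fract] at h
        refine le_of_eq_of_le ?_ h.le
        rw [log_mul hκ.ne' (by positivity), log_pow]
        congr 1
        ring
      refine (Ph_le_one _ _ _).trans (le_add_of_nonneg_of_le (by positivity) (le_trans ?_
        (single_le_sum (f := fun i => if ∃ k : ℤ, |log κ / log B - log (q i) / log B +
          n * (log a / log B) - k| ≤ 1 / (14 * P i) then (1 : ℝ) else 0)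
          (fun _ _ => by positivity) hi)))
      rw [if_pos hx]
  refine (sum_le_sum h1).trans ?_
  rw [sum_add_distrib, sum_comm]
  have h2 : ∑ i ∈ range R, ∑ n ∈ range M, (if ∃ k : ℤ, |log κ / log B - log (q i) / log B +
      n * (log a / log B) - k| ≤ 1 / (14 * P i) then (1 : ℝ) else 0) ≤
      ∑ i ∈ range R, (ε / 4 * M * (1 / 2) ^ i + C i) := sum_le_sum fun i _ => by
    rw [sum_boole]
    refine (hC i _ M).trans (add_le_add_left ?_ _)
    calc 4 * (M : ℝ) / P i = 4 / P i * M := by ring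
      _ ≤ ε / 4 * (1 / 2) ^ i * M := by gcongr; exact P2 i
      _ = _ := by ring
  rw [sum_add_distrib, ← mul_sum] at h2
  have h3 := sum_geometric_two_le R
  have h4 : 0 ≤ ε / 4 * M := by positivity
  simp only [sum_const, card_range, nsmul_eq_mul]
  nlinarith

theorem prod_le {B : ℝ} (hB : 1 < B) {R r : ℕ} {y : ℝ} (h1 : B ^ R ≤ y) (h2 : y < B ^ r) :
    ∏ i ∈ range r, gg (y * (B ^ (i + 1))⁻¹) ≤ Ph B R (mant B y) := by
  have hl := log_pos hB
  have hy : 0 < y := lt_of_lt_of_le (by positivity) h1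
  have e1 : (R : ℝ) ≤ log y / log B := by
    rw [le_div_iff₀ hl, ← log_pow]
    exact log_le_log (by positivity) h1
  have e2 : log y / log B < r := by
    rw [div_lt_iff₀ hl, ← log_pow]
    exact log_lt_log hy h2
  obtain ⟨s, hs⟩ : ∃ s : ℕ, ⌊log y / log B⌋ = s :=
    ⟨_, (Int.toNat_of_nonneg (Int.floor_nonneg.mpr ((Nat.cast_nonneg R).trans e1))).symm⟩
  have e3 : R ≤ s := by
    have := Int.le_floor.mpr (show ((R : ℤ) : ℝ) ≤ _ by exact_mod_cast e1)
    omega
  have e4 : s < r := by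
    have := Int.floor_lt.mpr (show _ < ((r : ℤ) : ℝ) by exact_mod_cast e2)
    omega
  have e5 : mant B y = y * (B ^ s)⁻¹ := by
    rw [mant, Int.fract, hs, sub_mul, div_mul_cancel₀ _ hl.ne', exp_sub, exp_log hy,
      Int.cast_natCast, exp_nat_mul, exp_log (by linarith), div_eq_mul_inv]
  refine (prod_le_prod_of_subset_of_le_one (s := (range R).image fun j => s - 1 - j)
    (fun i hi => ?_) (fun _ _ => gg_nonneg _) fun _ _ _ => gg_le_one _).trans (le_of_eq ?_)
  · obtain ⟨j, -, rfl⟩ := mem_image.mp hi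
    exact mem_range.mpr (by omega)
  · rw [prod_image fun i hi j hj h => by
      have := mem_range.mp hi
      have := mem_range.mp hj
      omega]
    refine prod_congr rfl fun j hj => ?_
    have := mem_range.mp hj
    rw [e5, show s = (s - 1 - j + 1) + j by omega, pow_add _ _ j]
    congr 1
    rw [show s - 1 - j + 1 + j - 1 - j = s - 1 - j by omega]
    field_simp

end Pool.Agent.H.MP_df8ac3_lc
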