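import Pool.Agent.H.MP_df8ac3_lc.A

set_option autoImplicit false

namespace Pool.Agent.H.MP_df8ac3_lc
open Finset Filter Topology Real Pool.Agent.H.MP_f44585_an Pool.Agent.H.MP_0447a2_lc

theorem sym_sum {ι ι' : ℕ} (F G : ℕ → ℕ → ℝ) (hF : ∀ n m, F n m = F m n) (hG : ∀ n d, 0 ≤ G n d)
    (h : ∀ n ∈ Ico ι ι', ∀ m ∈ Ico ι ι', m ≤ n → F n m ≤ G n (n - m)) :
    ∑ n ∈ Ico ι ι', ∑ m ∈ Ico ι ι', F n m ≤
      2 * ∑ d ∈ range (ι' - ι), ∑ n ∈ Ico ι ι', G n d := by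
  have h1 : ∑ n ∈ Ico ι ι', ∑ m ∈ Ico ι ι', (if m ≤ n then G n (n - m) else 0) ≤
      ∑ d ∈ range (ι' - ι), ∑ n ∈ Ico ι ι', G n d := by
    rw [sum_comm (s := range _)]
    refine sum_le_sum fun n hn => ?_
    rw [← sum_filter, ← sum_image (g := fun m => n - m) (f := fun d => G n d) fun i hi j hj hij => by
      simp only [coe_filter, mem_Ico, Set.mem_setOf_eq] at hi hj hij
      omega]
    refine sum_le_sum_of_subset_of_nonneg (fun d hd => ?_) fun _ _ _ => hG _ _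
    obtain ⟨m, hm, rfl⟩ := mem_image.mp hd
    simp only [mem_filter, mem_Ico, mem_range] at hm hn ⊢
    omega
  have h2 : ∑ n ∈ Ico ι ι', ∑ m ∈ Ico ι ι', F n m ≤ ∑ n ∈ Ico ι ι', ∑ m ∈ Ico ι ι',
      ((if m ≤ n then G n (n - m) else 0) + if n ≤ m then G m (m - n) else 0) := by
    refine sum_le_sum fun n hn => sum_le_sum fun m hm => ?_
    rcases le_total m n with e | e
    · rw [if_pos e]
      refine (h n hn m hm e).trans (le_add_of_nonneg_right ?_)
      split_ifs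
      exacts [hG _ _, le_rfl]
    · rw [if_pos e, hF]
      refine (h m hm n hn e).trans (le_add_of_nonneg_left ?_)
      split_ifs
      exacts [hG _ _, le_rfl]
  simp only [sum_add_distrib] at h2
  rw [sum_comm (f := fun n m => if n ≤ m then G m (m - n) else 0)] at h2
  linarith

noncomputable def xx (B : ℝ) (D : Finset ℕ) : ℝ := ∑ i ∈ D, (B ^ (i + 1))⁻¹

theorem avg (I : Finset ℕ) (v : ℕ → ℝ) (B t0 c : ℝ) (r : ℕ) :
    ∑ D ∈ (range r).powerset, ‖∑ n ∈ I, ee ((t0 + c * xx B D) * v n)‖ ^ 2 ≤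
      2 ^ r * ∑ n ∈ I, ∑ m ∈ I, ∏ i ∈ range r, gg (c * (v n - v m) * (B ^ (i + 1))⁻¹) := by
  refine (le_abs_self _).trans ?_
  rw [← Real.norm_eq_abs, ← Complex.norm_real, Complex.ofReal_sum]
  simp only [normsq]
  rw [sum_comm, mul_sum]
  refine norm_sum_le_of_le _ fun n _ => ?_
  rw [sum_comm, mul_sum]
  refine norm_sum_le_of_le _ fun m _ => le_of_eq ?_
  have e : ∀ D, ee ((t0 + c * xx B D) * v n - (t0 + c * xx B D) * v m) =
      ee (t0 * (v n - v m)) * ∏ i ∈ D, ee (c * (v n - v m) * (B ^ (i + 1))⁻¹) := fun D => by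
    rw [← ee_sum, ← ee_add, ← mul_sum, xx]
    congr 1
    ring
  simp only [e]
  rw [← mul_sum, ← prod_one_add, norm_mul, ee_norm, one_mul, norm_prod]
  simp only [gg]
  rw [prod_div_distrib, prod_const, card_range]
  field_simp

theorem tail {B : ℝ} (hB : 2 ≤ B) (j r : ℕ) : ∑ i ∈ Ico j r, (B ^ (i + 1))⁻¹ ≤ 2 / B * (B ^ j)⁻¹ := by
  have h0 : 0 < B := by linarith
  have := geo1 (α := B) (by rw [abs_of_pos h0]; linarith) j r
  rw [KK, abs_of_pos h0] at this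
  simp only [pow_succ, mul_inv, ← sum_mul]
  have h1 : B / (B - 1) ≤ 2 := by
    rw [div_le_iff₀ (by linarith)]
    linarith
  calc _ ≤ 2 * (B ^ j)⁻¹ * B⁻¹ := by
        gcongr
        exact this.trans (by gcongr)
    _ = _ := by ring

theorem frac {B : ℕ} (hB : 2 < B) {r j : ℕ} (hj : j < r) {D : Finset ℕ} (hD : D ⊆ range r) (z : ℤ)
    {η : ℝ} (h0 : 0 ≤ η) (h1 : η ≤ ((B : ℝ) ^ (r + 1))⁻¹) :
    Int.fract ((z + xx B D + η) * B ^ (j + 1)) ≤ 2 / B := by
  have hB' : (2 : ℝ) < B := by exact_mod_cast hB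
  have hp : (0 : ℝ) < B := by linarith
  have e1 : (z + xx B D + η) * (B : ℝ) ^ (j + 1) =
      ((z * B ^ (j + 1) + ∑ i ∈ D.filter (· ≤ j), B ^ (j - i) : ℤ) : ℝ) +
        (∑ i ∈ D.filter (¬ · ≤ j), ((B : ℝ) ^ (i + 1))⁻¹ + η) * B ^ (j + 1) := by
    rw [xx, ← sum_filter_add_sum_filter_not D (· ≤ j)]
    push_cast
    have : (∑ i ∈ D.filter (· ≤ j), ((B : ℝ) ^ (i + 1))⁻¹) * B ^ (j + 1) =
        ∑ i ∈ D.filter (· ≤ j), (B : ℝ) ^ (j - i) := by
      rw [sum_mul]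
      refine sum_congr rfl fun i hi => ?_
      have := (mem_filter.mp hi).2
      rw [show j + 1 = i + 1 + (j - i) by omega, pow_add _ (i + 1)]
      field_simp
    rw [← this]
    ring
  have e2 : ∑ i ∈ D.filter (¬ · ≤ j), ((B : ℝ) ^ (i + 1))⁻¹ + η ≤ 2 / B * ((B : ℝ) ^ (j + 1))⁻¹ := by
    refine le_trans ?_ (tail hB'.le (j + 1) (r + 1))
    rw [sum_Ico_succ_top (by omega)]
    refine add_le_add (sum_le_sum_of_subset_of_nonneg (fun i hi => ?_) fun _ _ _ => by positivity) h1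
    have := mem_range.mp (hD (mem_filter.mp hi).1)
    have := (mem_filter.mp hi).2
    exact mem_Ico.mpr (by omega)
  have e3 := mul_le_mul_of_nonneg_right e2 (pow_pos hp (j + 1)).le
  rw [mul_assoc, inv_mul_cancel₀ (by positivity), mul_one] at e3
  have e4 : 2 / (B : ℝ) < 1 := by rw [div_lt_one hp]; exact hB'
  rw [e1, Int.fract_intCast_add, Int.fract_eq_self.mpr ⟨by positivity, by linarith⟩]
  exact e3

theorem card_exc (ι ι' W : ℕ) :
    ∑ u ∈ Ico ι ι', (if u < ι + W ∨ ι' ≤ u + W then (1 : ℝ) else 0) ≤ 2 * W := by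
  rw [sum_boole]
  have : ((Ico ι ι').filter fun u => u < ι + W ∨ ι' ≤ u + W) ⊆ Ico ι (ι + W) ∪ Ico (ι' - W) ι' := by
    intro u hu
    simp only [mem_filter, mem_Ico, mem_union] at hu ⊢
    omega
  have h := (card_le_card this).trans (card_union_le _ _)
  rw [Nat.card_Ico, Nat.card_Ico] at h
  exact_mod_cast (by omega : _ ≤ 2 * W)

theorem bound {a : ℝ} (ha : 2 ≤ a) {B : ℕ} (hB : 2 ≤ B) (hθ : Irrational (log a / log B)) {ε : ℝ}
    (hε : 0 < ε) (E : ℝ) : ∃ C : ℝ, 0 ≤ C ∧ ∀ (ι ι' r : ℕ) (c : ℝ), 0 < c → 1 ≤ E * (c * a ^ ι) →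
      (∀ u, u < ι' → c * a ^ u < E * B ^ r) →
      ∑ n ∈ Ico ι ι', ∑ m ∈ Ico ι ι', ∏ i ∈ range r,
        gg (c * (a ^ n - a ^ m) * ((B : ℝ) ^ (i + 1))⁻¹) ≤
        2 * ε * ((ι' - ι : ℕ) : ℝ) ^ 2 + C * ((ι' - ι : ℕ) : ℝ) := by
  classical
  have hB' : (2 : ℝ) ≤ B := by exact_mod_cast hB
  have h0 : 0 < a := by linarith
  obtain ⟨R, C, hC⟩ := key h0 hB hθ hε
  obtain ⟨W, hW⟩ := pow_unbounded_of_one_lt (2 * |E| * B ^ R) (by linarith : 1 < a)
  refine ⟨2 * (|C| + 2 * W + 1), by positivity, fun ι ι' r c hc h1 h2 => ?_⟩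
  have hE : 0 < E := by
    by_contra h
    nlinarith [mul_pos hc (pow_pos h0 ι)]
  rw [abs_of_pos hE] at hW
  have hR : (1 : ℝ) ≤ B ^ R := one_le_pow₀ (by linarith)
  refine (sym_sum _ (fun u d => if d = 0 then 1 else Ph B R (mant B (c * (1 - (a ^ d)⁻¹) * a ^ u)) +
    if u < ι + W ∨ ι' ≤ u + W then 1 else 0) (fun n m => prod_congr rfl fun i _ => ?_)
    (fun u d => ?_) fun n hn m hm hmn => ?_).trans ?_
  · rw [← gg_neg]
    congr 1
    ring
  · have := Ph_nonneg B R (mant B (c * (1 - (a ^ d)⁻¹) * a ^ u))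
    split_ifs <;> linarith
  · have e0 : ∏ i ∈ range r, gg (c * (a ^ n - a ^ m) * ((B : ℝ) ^ (i + 1))⁻¹) ≤ 1 :=
      prod_le_one (fun _ _ => gg_nonneg _) fun _ _ => gg_le_one _
    have e1 := Ph_nonneg B R (mant B (c * (1 - (a ^ (n - m))⁻¹) * a ^ n))
    split_ifs with d0 hx
    · exact e0
    · linarith
    push Not at hx
    have e2 : c * (1 - (a ^ (n - m))⁻¹) * a ^ n = c * (a ^ n - a ^ m) := by
      rw [show a ^ n = a ^ (n - m) * a ^ m by rw [← pow_add, Nat.sub_add_cancel hmn]]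
      field_simp
    have e3 : 2 * a ^ m ≤ a ^ n := by
      refine le_trans ?_ (pow_le_pow_right₀ (by linarith) (by omega : m + 1 ≤ n))
      rw [pow_succ]
      nlinarith [pow_pos h0 m]
    have e4 : a ^ ι * a ^ W ≤ a ^ n := by
      rw [← pow_add]
      exact pow_le_pow_right₀ (by linarith) hx.1
    have e5 := h2 _ hx.2
    rw [add_zero, e2]
    refine prod_le (by linarith) ?_ ?_
    · have e6 : c * a ^ ι * (2 * E * B ^ R) ≤ c * a ^ n := by
        rw [mul_assoc]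
        gcongr
        exact le_trans (by gcongr) e4
      have e7 : c * a ^ m * 2 ≤ c * a ^ n := by nlinarith
      have e8 : 1 * (2 * (B : ℝ) ^ R) ≤ E * (c * a ^ ι) * (2 * B ^ R) := by gcongr
      linarith
    · have e6 : c * a ^ n * E ≤ c * a ^ (n + W) := by
        rw [pow_add, ← mul_assoc]
        gcongr
        nlinarith
      have e7 : c * a ^ n < B ^ r := lt_of_mul_lt_mul_right (by linarith) hE.le
      nlinarith [mul_pos hc (pow_pos h0 m)]
  · have e1 : ∀ d ∈ range (ι' - ι), ∑ u ∈ Ico ι ι', (if d = 0 then (1 : ℝ) else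
        Ph B R (mant B (c * (1 - (a ^ d)⁻¹) * a ^ u)) + if u < ι + W ∨ ι' ≤ u + W then 1 else 0) ≤
        (ε * ((ι' - ι : ℕ) : ℝ) + |C| + 2 * W) + if d = 0 then ((ι' - ι : ℕ) : ℝ) else 0 := by
      intro d _
      split_ifs with d0
      · rw [sum_const, Nat.card_Ico, nsmul_eq_mul, mul_one]
        exact le_add_of_nonneg_left (by positivity)
      · rw [sum_add_distrib, add_zero]
        refine add_le_add ?_ (card_exc _ _ _)
        have e2 : (a ^ d)⁻¹ < 1 := inv_lt_one_of_one_lt₀ (one_lt_pow₀ (by linarith) d0)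
        have := hC (c * (1 - (a ^ d)⁻¹) * a ^ ι) (ι' - ι) (by
          have : 0 < 1 - (a ^ d)⁻¹ := by linarith
          positivity)
        rw [sum_Ico_eq_sum_range]
        simp only [pow_add, ← mul_assoc]
        linarith [le_abs_self C]
    have e2 := sum_le_sum e1
    rw [sum_add_distrib, sum_const, card_range, nsmul_eq_mul, sum_ite_eq'] at e2
    have e3 : (if 0 ∈ range (ι' - ι) then ((ι' - ι : ℕ) : ℝ) else 0) ≤ ((ι' - ι : ℕ) : ℝ) := by
      split_ifs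
      exacts [le_rfl, Nat.cast_nonneg _]
    nlinarith

theorem step {a : ℝ} (ha : 2 ≤ a) {b L : ℕ} (hb : 2 ≤ b) (hB : 2 < b ^ L)
    (hθ : Irrational (log a / log (b ^ L : ℕ))) (H : ℕ) {ε : ℝ} (hε : 0 < ε) :
    ∃ C : ℝ, 0 ≤ C ∧ ∀ (s d : ℝ) (r : ℕ), 0 ≤ s → d = ((r + 1) * L + 2) * log |(b : ℝ)| →
      Step (exp (-s)) (exp (-(s + d))) fun t =>
        (∀ j, j < r → Int.fract (t * (b : ℝ) ^ (io b s + 1 + (j + 1) * L)) ≤ 2 / b ^ L) ∧
        ∀ h, 1 ≤ h → h ≤ H → ‖SS a h s (s + d) t‖ ≤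
          √(H * (2 * ε * ((io a (s + d) - io a s : ℕ) : ℝ) ^ 2 +
            C * ((io a (s + d) - io a s : ℕ) : ℝ))) + 7 * H * KK a := by
  have hb' : (2 : ℝ) ≤ b := by exact_mod_cast hb
  have hB' : (2 : ℝ) < b ^ L := by exact_mod_cast hB
  have a0 : |a| = a := abs_of_pos (by linarith)
  have b0 : |(b : ℝ)| = b := abs_of_pos (by linarith)
  have a1 : 1 < |a| := by linarith
  have b1 : 1 < |(b : ℝ)| := by linarith
  obtain ⟨C, C0, hC⟩ := bound ha hB.le hθ hε ((H + 1) * b ^ 2 * b ^ L)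
  refine ⟨C, C0, fun s d r hs hd p => ?_⟩
  have lb := log_pos b1
  have ed : exp d = b ^ 2 * b ^ L * (b ^ L) ^ r := by
    rw [← pow_mul, ← pow_add, ← pow_add, ← b0, pow_eq b1, hd]
    congr 1
    push_cast
    ring
  have c1 : exp s * b ≤ b ^ (io b s + 1) := by
    have := io1 b1 s
    rw [b0] at this
    rw [pow_succ]
    gcongr
  have c2 : (b : ℝ) ^ (io b s + 1) ≤ exp s * b ^ 2 := by
    have := io_lt b1 hs
    rw [div_add_one lb.ne', lt_div_iff₀ lb] at this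
    have e := pow_eq b1
    rw [b0] at e this
    rw [e, e, ← exp_add, exp_le_exp]
    push_cast
    linarith
  generalize io b s + 1 = N at c1 c2
  have es := exp_pos s
  have pN : (0 : ℝ) < b ^ N := by positivity
  obtain ⟨D, hD, h1⟩ := exists_le_of_sum_le (s := (range r).powerset) ⟨∅, empty_mem_powerset _⟩
    (f := fun D => ∑ h ∈ Icc 1 H,
      ‖SS a h s (s + d) (⌈p * b ^ N⌉ / b ^ N + ((b : ℝ) ^ N)⁻¹ * xx (b ^ L : ℕ) D)‖ ^ 2)
    (g := fun _ => H * (2 * ε * ((io a (s + d) - io a s : ℕ) : ℝ) ^ 2 +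
      C * ((io a (s + d) - io a s : ℕ) : ℝ))) (by
      rw [sum_comm, sum_const, card_powerset, card_range, nsmul_eq_mul]
      refine (sum_le_card_nsmul _ _ (2 ^ r * (2 * ε * ((io a (s + d) - io a s : ℕ) : ℝ) ^ 2 +
        C * ((io a (s + d) - io a s : ℕ) : ℝ))) fun h hh => ?_).trans (le_of_eq ?_)
      · have h1 : (1 : ℝ) ≤ h := by exact_mod_cast (mem_Icc.mp hh).1
        have h2 : (h : ℝ) ≤ H := by exact_mod_cast (mem_Icc.mp hh).2
        have e1 : ∀ (t : ℝ) (n : ℕ), h * (t * a ^ n) = t * (h * a ^ n) := fun t n => by ring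
        have e2 : ∀ n m : ℕ, ((b : ℝ) ^ N)⁻¹ * (h * a ^ n - h * a ^ m) =
          h * ((b : ℝ) ^ N)⁻¹ * (a ^ n - a ^ m) := fun n m => by ring
        simp only [SS, e1]
        refine (avg _ (fun n => h * a ^ n) _ _ _ r).trans (mul_le_mul_of_nonneg_left ?_ (by positivity))
        simp only [e2]
        refine hC _ _ r _ (by positivity) ?_ fun u hu => ?_
        · have e3 := io1 a1 s
          rw [a0] at e3
          calc (1 : ℝ) = 1 * b ^ 2 * 1 * (1 * (exp s * b ^ 2)⁻¹ * exp s) := by field_simp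
            _ ≤ _ := by gcongr <;> linarith
        · have e3 := io2 a1 hu
          rw [a0, exp_add, ed] at e3
          push_cast
          calc (h : ℝ) * ((b : ℝ) ^ N)⁻¹ * a ^ u <
                (H + 1) * (exp s)⁻¹ * (exp s * (b ^ 2 * b ^ L * (b ^ L) ^ r)) := by
                refine mul_lt_mul' ?_ e3 (by positivity) (by positivity)
                gcongr
                · linarith
                · nlinarith
            _ = _ := by field_simp
      · simp only [Nat.card_Icc, Nat.add_sub_cancel, nsmul_eq_mul]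
        push_cast
        ring)
  have hD' := mem_powerset.mp hD
  have x0 : 0 ≤ xx (b ^ L : ℕ) D := sum_nonneg fun _ _ => by positivity
  have x1 : xx (b ^ L : ℕ) D + (((b ^ L : ℕ) : ℝ) ^ (r + 1))⁻¹ ≤ 1 := by
    have := tail (B := (b ^ L : ℕ)) (by push_cast; linarith) 0 (r + 1)
    rw [sum_Ico_succ_top (Nat.zero_le _), ← range_eq_Ico, pow_zero, inv_one, mul_one] at this
    have e1 : xx (b ^ L : ℕ) D ≤ ∑ i ∈ range r, (((b ^ L : ℕ) : ℝ) ^ (i + 1))⁻¹ :=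
      sum_le_sum_of_subset_of_nonneg hD' fun _ _ _ => by positivity
    have e2 : 2 / ((b ^ L : ℕ) : ℝ) ≤ 1 := by
      push_cast
      rw [div_le_one (by linarith)]
      linarith
    linarith
  have x2 : exp (-(s + d)) ≤ ((b : ℝ) ^ N)⁻¹ * (((b ^ L : ℕ) : ℝ) ^ (r + 1))⁻¹ := by
    rw [exp_neg, ← mul_inv, exp_add, ed]
    push_cast
    refine inv_anti₀ (by positivity) ?_
    calc _ ≤ exp s * b ^ 2 * (b ^ L) ^ (r + 1) := by gcongr
      _ = _ := by ring
  have z1 := Int.le_ceil (p * b ^ N)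
  have z2 := Int.ceil_lt_add_one (p * b ^ N)
  have ci : (0 : ℝ) < ((b : ℝ) ^ N)⁻¹ := by positivity
  refine ⟨⌈p * b ^ N⌉ / b ^ N + ((b : ℝ) ^ N)⁻¹ * xx (b ^ L : ℕ) D, ?_, ?_, fun t t1 t2 =>
    ⟨fun j hj => ?_, fun h h2 h3 => ?_⟩⟩
  · exact le_add_of_le_of_nonneg (by rwa [le_div_iff₀ pN]) (by positivity)
  · have e1 : (⌈p * b ^ N⌉ : ℝ) / b ^ N ≤ p + ((b : ℝ) ^ N)⁻¹ := by
      rw [div_le_iff₀ pN, add_mul, inv_mul_cancel₀ pN.ne']
      linarith
    have e2 : 2 * ((b : ℝ) ^ N)⁻¹ ≤ exp (-s) := by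
      rw [exp_neg, ← div_eq_mul_inv, inv_eq_one_div, div_le_div_iff₀ pN es]
      nlinarith
    nlinarith [mul_le_mul_of_nonneg_left x1 ci.le]
  · have e1 := frac hB hj hD' ⌈p * b ^ N⌉
      (η := (t - (⌈p * b ^ N⌉ / b ^ N + ((b : ℝ) ^ N)⁻¹ * xx (b ^ L : ℕ) D)) * b ^ N)
      (mul_nonneg (by linarith) pN.le) (by
        rw [← le_div_iff₀ pN, div_eq_inv_mul _ ((b : ℝ) ^ N)]
        rw [div_eq_inv_mul] at t2
        rw [div_eq_inv_mul]
        linarith)
    refine le_of_eq_of_le ?_ (e1.trans (by push_cast; rfl))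
    congr 1
    push_cast
    rw [pow_add, mul_comm (j + 1), pow_mul]
    field_simp
    ring
  · refine (SS_lip a1 h s (s + d) (c := 1)
      (t' := ⌈p * b ^ N⌉ / b ^ N + ((b : ℝ) ^ N)⁻¹ * xx (b ^ L : ℕ) D) ?_).trans
      (add_le_add (le_sqrt_of_sq_le (le_trans ?_ h1)) ?_)
    · rw [one_mul, abs_of_nonneg (by linarith)]
      linarith
    · exact single_le_sum (f := fun h : ℕ =>
        ‖SS a h s (s + d) (⌈p * b ^ N⌉ / b ^ N + ((b : ℝ) ^ N)⁻¹ * xx (b ^ L : ℕ) D)‖ ^ 2)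
        (fun _ _ => by positivity) (mem_Icc.mpr ⟨h2, h3⟩)
    · have := KK_pos a1
      rw [mul_one]
      gcongr

theorem irr {a b : ℕ} (ha : 2 ≤ a) (hb : 2 ≤ b) (hab : ∀ m n : ℕ, 0 < m → 0 < n → a ^ m ≠ b ^ n)
    {L : ℕ} (hL : 0 < L) : Irrational (log a / log (b ^ L : ℕ)) := by
  rintro ⟨q, hq⟩
  have la : 0 < log (a : ℝ) := log_pos (by exact_mod_cast ha)
  have lb : 0 < log ((b ^ L : ℕ) : ℝ) :=
    log_pos (by exact_mod_cast Nat.one_lt_pow hL.ne' hb)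
  have q0 : 0 < q := by
    have : (0 : ℝ) < q := hq ▸ div_pos la lb
    exact_mod_cast this
  obtain ⟨n, hn⟩ := Int.eq_ofNat_of_zero_le (Rat.num_pos.mpr q0).le
  have n0 : 0 < n := by have := Rat.num_pos.mpr q0; omega
  rw [Rat.cast_def, hn, div_eq_div_iff (by exact_mod_cast q.den_ne_zero) lb.ne'] at hq
  refine hab q.den (L * n) q.den_pos (by positivity) ?_
  have : ((a ^ q.den : ℕ) : ℝ) = ((b ^ L) ^ n : ℕ) := by
    refine log_injOn_pos (Set.mem_Ioi.mpr (by positivity)) (Set.mem_Ioi.mpr (by positivity)) ?_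
    rw [Nat.cast_pow, Nat.cast_pow _ n, log_pow, log_pow, mul_comm, ← hq, Int.cast_natCast]
  rw [pow_mul]
  exact_mod_cast this

theorem small2 {A C K : ℝ} (hA : 0 < A) (hC : 0 ≤ C) (H : ℕ) : ∀ᶠ k : ℕ in atTop, ∀ l : ℝ, 0 ≤ l →
    l ≤ A * (k + 1) → √(H * (2 * (1 / (16 * (H + 1) ^ 3 * A ^ 2)) * l ^ 2 + C * l)) + K ≤
      (k + 1) / (H + 1) := by
  have h0 : (0 : ℝ) < H + 1 := by positivity
  filter_upwards [tendsto_natCast_atTop_atTop.eventually_ge_atTop (8 * (H * C * A) * (H + 1) ^ 2),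
    tendsto_natCast_atTop_atTop.eventually_ge_atTop (2 * K * (H + 1))] with k h1 h2 l l0 l1
  have hk0 : (0 : ℝ) ≤ k := Nat.cast_nonneg k
  have e1 : √(H * (2 * (1 / (16 * (H + 1) ^ 3 * A ^ 2)) * l ^ 2 + C * l)) ≤
      (k + 1) / (H + 1) / 2 := by
    refine sqrt_le_iff.mpr ⟨by positivity, ?_⟩
    have a1 : H * (2 * (1 / (16 * (H + 1) ^ 3 * A ^ 2)) * l ^ 2) ≤ ((k + 1) / (H + 1)) ^ 2 / 8 := by
      calc _ ≤ (H + 1) * (2 * (1 / (16 * (H + 1) ^ 3 * A ^ 2)) * (A * (k + 1)) ^ 2) := by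
            gcongr
            linarith
        _ = _ := by field_simp; norm_num
    have a2 : H * (C * l) ≤ ((k + 1) / (H + 1)) ^ 2 / 8 := by
      rw [div_pow, div_div, le_div_iff₀ (by positivity)]
      calc _ ≤ H * (C * (A * (k + 1))) * ((H + 1) ^ 2 * 8) := by gcongr
        _ = 8 * (H * C * A) * (H + 1) ^ 2 * (k + 1) := by ring
        _ ≤ (k + 1) * (k + 1) := by gcongr; linarith
        _ = _ := by ring
    rw [mul_add, div_pow]
    linarith
  have e2 : K ≤ (k + 1) / (H + 1) / 2 := by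
    rw [div_div, le_div_iff₀ (by positivity)]
    linarith
  linarith

theorem both {a b : ℕ} (ha : 2 ≤ a) (hb : 2 ≤ b) (hab : ∀ m n : ℕ, 0 < m → 0 < n → a ^ m ≠ b ^ n)
    (G : Bool → ℕ → ℕ → Set (ℕ → ℕ)) (hG : ∀ e i j, IsClosed (G e i j)) :
    ∃ f : (ℕ → ℕ) → ℝ, Continuous f ∧ ∀ y,
      y ∈ (⋂ i, ⋃ j, G true i j) \ (⋂ i, ⋃ j, G false i j) ↔
        (UD fun n => f y * (a : ℝ) ^ n) ∧ ¬ UD fun n => f y * (b : ℝ) ^ n := by
  have ha' : (2 : ℝ) ≤ a := by exact_mod_cast ha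
  have hb' : (2 : ℝ) ≤ b := by exact_mod_cast hb
  have a1 : 1 < |(a : ℝ)| := by rw [Nat.abs_cast]; linarith
  have b1 : 1 < |(b : ℝ)| := by rw [Nat.abs_cast]; linarith
  have la := log_pos a1
  have lb := log_pos b1
  obtain ⟨m0, l0, r0⟩ := red (G true) (hG true)
  obtain ⟨m1, l1, r1⟩ := red (G false) (hG false)
  choose L γ hp using par b1
  obtain ⟨f, g, f1, g1, f2⟩ := main a1 b1
    (fun m k t => Hit b (2 * γ m) (1 / ((m + 2) * L m * log |(b : ℝ)|)) k t)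
    (fun m H => by
      obtain ⟨p0, p1, p2, p3, -⟩ := hp m
      rw [Nat.abs_cast] at p3
      have p4 : (0 : ℝ) < b ^ L m := by positivity
      have p5 : 2 < b ^ L m := by
        have : (2 : ℝ) < b ^ L m := by nlinarith
        exact_mod_cast this
      have hA : 0 < 1 / log |(a : ℝ)| + 1 := by positivity
      obtain ⟨C, C0, hC⟩ := step ha' hb p5 (irr ha hb hab p0) H
        (ε := 1 / (16 * (H + 1) ^ 3 * (1 / log |(a : ℝ)| + 1) ^ 2)) (by positivity)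
      filter_upwards [arith b1 m p0, small2 (K := 7 * H * KK a) hA C0 H] with k ⟨r, _, r1, r2⟩ q
        s s1 s2
      have hk0 : (0 : ℝ) ≤ k := Nat.cast_nonneg k
      have s0 : 0 ≤ s := le_trans (by positivity) s1
      have d0 : 0 ≤ ((r + 1) * L m + 2) * log |(b : ℝ)| := by positivity
      refine ⟨_, d0, r1, (hC s _ r s0 rfl).mono le_rfl le_rfl fun t ht =>
        ⟨r2 s _ t _ s1 s2 (Nat.le_succ _) le_rfl fun j hj => (ht.1 j hj).trans_lt ?_,
          fun j j1 j2 => (ht.2 j j1 j2).trans (q _ (Nat.cast_nonneg _) ?_)⟩⟩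
      · rw [div_lt_iff₀ p4]
        nlinarith
      · have e1 := io_len a1 s0 (le_add_of_nonneg_right d0)
        rw [Nat.card_Ico, add_sub_cancel_left] at e1
        have e2 : 2 * (k : ℝ) / (m + 2) ≤ k := by
          rw [div_le_iff₀ (by positivity)]
          nlinarith [mul_nonneg hk0 (Nat.cast_nonneg (α := ℝ) m)]
        have e3 : ((r + 1) * L m + 2) * log |(b : ℝ)| / log |(a : ℝ)| ≤ 1 / log |(a : ℝ)| * k := by
          rw [one_div_mul_eq_div]
          gcongr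
          linarith
        have e4 : 0 < 1 / log |(a : ℝ)| := by positivity
        nlinarith) m0 m1 l0 l1
  refine ⟨f, f1, fun y => ?_⟩
  obtain ⟨y1, y2, y3⟩ := f2 y
  rw [Set.mem_diff, r0, r1, y1]
  exact and_congr_right fun h => ⟨fun h1 => nud b1 g1 h1 hp (y3.mono fun k hk m hm => hm ▸ hk),
    fun h1 h2 => h1 (y2 h h2)⟩

end Pool.Agent.H.MP_df8ac3_lc
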